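import Pool.Agent.H74.LowDeg.Final

/-!
Universal complete intersections of dimension three and type `(2, D)`, with `D` odd, carry points
of degree `2 * 2 * D` that do not arise from a complete intersection with a degree-two surface.
-/

set_option autoImplicit false

namespace Pool.Agent.Results.MP_96c727_ag.NotAllArise

open Pool.Agent.H74.LowDeg

theorem result :
    (∀ D : ℕ, Odd D → 3 ≤ D → ∃ P : PSpace (BField (3 + 2) ![2, D]) (3 + 2), IsClosed {P} ∧
      OnX ![2, D] P ∧ pointDegree P = 2 * (2 * D) ∧ ¬ Arises ![2, D] 2 P) ∧ ¬ AllArise 3 2 :=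
  main_result

end Pool.Agent.Results.MP_96c727_ag.NotAllArise
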